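import Pool.Agent.Helper57.KA.Tr
import Pool.Agent.Helper1.KA.Stmts2
import Pool.Agent.Helper66.KL.E

set_option autoImplicit false

/-!
Project KA (MP_0b9e0b_ag), KA-14b: the final points with `e = d`.
-/

namespace Pool.Agent.Helper66.KA

open Pool.Agent.Helper16 Pool.Agent.Helper1.KA Pool.Agent.Helper57.KA Finset
open Pool.Agent.Helper1.KL (Var VarF Key key fld spec cyc relations rat CH coef Idx)
open Pool.Agent.Helper1.KL (aff xc yc tr ec red xpt perp Prp ratf Vert Con At0 Quo cls IT RT)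
open Pool.Agent.Helper1.KL (charP_alg)
open Pool.Agent.Helper57.KL (tr_zero)
open Pool.Agent.Helper66.KL (exists_cast_of_pow cast_mul' ec_smul)

section lin

variable {k : Type} [Field k] {p a n : ℕ} [Fact p.Prime] {c : Fin n → k}
  {N : Type} [Field N] [CharP N p]

theorem Xc_smul [Algebra (RatFunc k) N] (d : ZMod p) (ρ : Fin n → ZMod p)
    (z : Fin n ⊕ Fin n → Option N) : Xc a c (d • ρ) z = d.cast * Xc a c ρ z := by
  unfold Xc
  rw [mul_sum]
  refine sum_congr rfl fun i _ => ?_
  rw [Pi.smul_apply, smul_eq_mul, cast_mul', mul_assoc, mul_assoc, mul_assoc]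

theorem Bc_smul (d : ZMod p) (ρ : Fin n → ZMod p) (z : Fin n ⊕ Fin n → Option N) :
    Bc (d • ρ) z = d.cast * Bc ρ z := by
  unfold Bc
  rw [mul_sum]
  refine sum_congr rfl fun i _ => ?_
  rw [Pi.smul_apply, smul_eq_mul, cast_mul', mul_assoc]

end lin

variable {k : Type} [Field k] {p a : ℕ} [Fact p.Prime] [CharP k p] {n : ℕ} {c : Fin n → k}
  {r : ℕ}

/-- The case `d ≠ 0`. -/
theorem mem_of_ne {N : Type} [Field N] [Algebra k N] [Algebra (RatFunc k) N]
    [IsScalarTower k (RatFunc k) N] {I : Finset (Fin n)} {z : Fin n ⊕ Fin n → Option N}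
    {ρ : Fin n → ZMod p} (hz : Good p a c r I z) (hv : Vert k r z) (hX : Xc a c ρ z = 0)
    (hB : Bc ρ z = 0) {d : ZMod p} (hd : d ≠ 0) (he : ec ρ z = d.cast) :
    SS p a c r ρ z ∈
      ⨆ (d : ZMod p) (_ : d ≠ 0), SP p a c r I (d • ρ) (P1 k p a c r (d • ρ)) := by
  have := charP_alg (k := k) (p := p) N
  refine Submodule.mem_iSup_of_mem d⁻¹ (Submodule.mem_iSup_of_mem (inv_ne_zero hd) ?_)
  refine Submodule.subset_span ⟨N, inferInstance, inferInstance, inferInstance, inferInstance, z,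
    hz, ⟨hv, ?_, ?_, ?_⟩, ?_⟩
  · rw [Xc_smul, hX, mul_zero]
  · rw [Bc_smul, hB, mul_zero]
  · rw [ec_smul, he, ← cast_mul', inv_mul_cancel₀ hd]
    exact ZMod.cast_one (dvd_refl p)
  · exact (SS_smul (inv_ne_zero hd) ρ z).symm

/-- KA-14b. -/
theorem modE (ha : a ≠ 0) : ModE k p a c r := by
  classical
  intro N _ _ _ _ I z ρ hz hρI hρ hv hX hB
  have := charP_alg (k := k) (p := p) N
  have h1 : ec ρ z ^ p = ec ρ z := by
    have h := as_eq ha hz.mem ρ
    rw [hX, hB, mul_zero, add_zero, sub_eq_zero] at h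
    exact h
  obtain ⟨d, hd⟩ := exists_cast_of_pow h1
  by_cases h0 : d = 0
  · subst h0
    have he : ec ρ z = 0 := by rw [hd]; exact ZMod.cast_zero
    obtain ⟨i, hi⟩ : ∃ i, ρ i ≠ 0 := by
      by_contra hcon
      push Not at hcon
      exact hρ (funext hcon)
    set h : Fin n → ZMod p := Pi.single i (ρ i)⁻¹ with hh
    have h2 : ∑ j, ρ j * h j = 1 := by
      rw [sum_eq_single i]
      · rw [hh, Pi.single_eq_same, mul_inv_cancel₀ hi]
      · intro j _ hj
        rw [hh, Pi.single_eq_of_ne hj, mul_zero]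
      · intro h
        exact absurd (mem_univ i) h
    have h3 := sum_SS_tr (p := p) (a := a) (c := c) (r := r) h2 z
    rw [← Finset.add_sum_erase univ _ (mem_univ (0 : ZMod p)), zero_smul, tr_zero] at h3
    have h4 : SS p a c r ρ z = SS p a c r 0 z -
        ∑ d ∈ univ.erase (0 : ZMod p), SS p a c r ρ (tr (d • h) z) := by
      rw [← h3, add_sub_cancel_right]
    rw [h4]
    refine sub_mem (Submodule.mem_sup_left (Submodule.mem_span_singleton_self _))
      (Submodule.mem_sup_right (Submodule.sum_mem _ fun d hd => ?_))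
    have hd0 : d ≠ 0 := (mem_erase.1 hd).1
    refine mem_of_ne (Good.tr hz (d • h)) hv ?_ ?_ hd0 ?_
    · exact hX
    · exact hB
    · rw [Good.ec_tr hz hρI, he, zero_add]
      congr 1
      have h5 : ∑ i, ρ i * (d • h) i = d * ∑ i, ρ i * h i := by
        rw [mul_sum]
        exact sum_congr rfl fun i _ => by rw [Pi.smul_apply, smul_eq_mul]; ring
      rw [h5, h2, mul_one]
  · exact Submodule.mem_sup_right (mem_of_ne hz hv hX hB h0 hd)

end Pool.Agent.Helper66.KA
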